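import Pool.Agent.N480.UP.Alg3

/-!
# Sequences of sets over which the projective hierarchy collapses (MP_1c8600_lc)

Let `A n` be subsets of `E` such that every projective set over `{A n}` is of projective class `k`
(property (b)_k). Then the projective subsets of `E` form a σ-algebra, and every map from `E` to the
Cantor space which is measurable with respect to this σ-algebra has a Marczewski null image: every
perfect set contains a perfect set disjoint from the image. In particular no such map is onto, and
(b)_k fails for every `k` if `E = ℝ` and the σ-algebra generated by the `A n` contains the Borel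
sets.
-/

set_option autoImplicit false

open Set Function MeasurableSpace MeasureTheory

namespace Pool.Agent.Results.MP_1c8600_lc.CollapseStructure

open Pool.Agent.N480.UP

universe u

theorem measurable_of_isProj {E : Type u} [Nonempty E] (A : ℕ → Set E) (k : ℕ) (hk : 1 ≤ k)
    (hb : Collapse A k) (hU : ⋃ n, A n = univ) (f : E → ℕ → Bool)
    (hf : ∀ n, IsProj A {x | f x n = true}) : @Measurable _ _ (PS A k hk hb hU) _ f := by
  let _ : MeasurableSpace E := PS A k hk hb hU
  rw [measurable_pi_iff]
  intro n
  exact measurable_to_bool (hf n)

/-- (1) If (b)_k holds for the sequence `A` of subsets of `E`, then countable unions of projective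
sets over `{A n}` are projective over `{A n}` (complements are by definition), and the image of
every map `f : E → 2^ω` such that the sets `{x | f x n = true}` are projective over `{A n}` is
Marczewski null: every perfect set (the image of a continuous injection `e` of the Cantor space)
contains a perfect set (the image of `e ∘ e'`) disjoint from the range of `f`; in particular `f` is
not onto.

(2) If `A` is a sequence of subsets of `ℝ` and the σ-algebra generated by the `A n` contains all
Borel sets, then (b)_k fails for every `k`. -/
theorem result :
    (∀ (E : Type u) (A : ℕ → Set E) (k : ℕ), 1 ≤ k → Collapse A k →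
      (∀ S : ℕ → Set E, (∀ n, IsProj A (S n)) → IsProj A (⋃ n, S n)) ∧
      ∀ f : E → ℕ → Bool, (∀ n, IsProj A {x | f x n = true}) →
        (∀ e : (ℕ → Bool) → (ℕ → Bool), Continuous e → Injective e →
          ∃ e' : (ℕ → Bool) → (ℕ → Bool), Continuous e' ∧ Injective e' ∧
            ∀ t, e (e' t) ∉ range f) ∧
        ¬ Surjective f) ∧
    ∀ A : ℕ → Set ℝ, borel ℝ ≤ generateFrom (range A) → ∀ k, 1 ≤ k → ¬ Collapse A k := by
  refine ⟨?_, ?_⟩
  · intro E A k hk hb
    rcases isEmpty_or_nonempty E with hE | hE
    · refine ⟨?_, ?_⟩
      · intro S hS
        have : (⋃ n, S n) = S 0 := by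
          ext x; exact (hE.false x).elim
        rw [this]
        exact hS 0
      · intro f _
        refine ⟨fun e _ _ => ⟨id, continuous_id, injective_id, ?_⟩, ?_⟩
        · rintro t ⟨x, -⟩
          exact hE.false x
        · intro hs
          obtain ⟨x, -⟩ := hs fun _ => true
          exact hE.false x
    by_cases hU : ⋃ n, A n = univ
    · refine ⟨fun S hS => isProj_iUnion A hU k hk hb S hS, ?_⟩
      intro f hf
      have hfm := measurable_of_isProj A k hk hb hU f hf
      exact ⟨fun e he hi => image_null_proj A hU k hk hb f hfm e he hi,
        not_surjective_proj A hU k hk hb f hfm⟩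
    obtain ⟨p, hp⟩ : ∃ p, p ∉ ⋃ n, A n := by
      by_contra h
      push Not at h
      exact hU (eq_univ_of_forall h)
    by_cases hne : ∃ n a, a ∈ A n
    · obtain ⟨n, a, ha⟩ := hne
      exact absurd hb (not_collapse A p hp k hk n a ha)
    push Not at hne
    have hphi : ∀ x y : E, phi A x = phi A y := by
      intro x y
      funext n
      simp [phi, hne n x, hne n y]
    refine ⟨?_, ?_⟩
    · intro S hS
      by_cases h : ∃ n x, x ∈ S n
      · obtain ⟨n, x, hx⟩ := h
        have : (⋃ n, S n) = S n := by
          ext y
          constructor
          · intro _
            exact isProj_inv A _ (hS n) x y (hphi x y) hx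
          · intro hy
            exact mem_iUnion.2 ⟨n, hy⟩
        rw [this]
        exact hS n
      · push Not at h
        have : (⋃ n, S n) = S 0 := by
          ext y
          simp only [mem_iUnion]
          exact ⟨fun ⟨n, hn⟩ => (h n y hn).elim, fun hy => ⟨0, hy⟩⟩
        rw [this]
        exact hS 0
    · intro f hf
      have hc : ∀ x y, f x = f y := by
        intro x y
        funext n
        have h4 := isProj_inv A _ (hf n) x y (hphi x y)
        have h5 := isProj_inv A _ (hf n) y x (hphi y x)
        simp only [mem_ofPred_eq] at h4 h5
        cases hfx : f x n <;> cases hfy : f y n <;> simp_all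
      refine ⟨?_, ?_⟩
      · intro e _ hi
        by_contra hcon
        push Not at hcon
        obtain ⟨t, x, hx⟩ := hcon (inter fun _ => true) (inter_continuous _) (inter_injective _)
        obtain ⟨t', x', hx'⟩ := hcon (inter fun _ => false) (inter_continuous _)
          (inter_injective _)
        have h1 : inter (fun _ => true) t = inter (fun _ => false) t' :=
          hi (by rw [← hx, ← hx']; exact hc x x')
        have h2 := congrArg evens h1
        rw [evens_inter, evens_inter] at h2
        have h3 := congrFun h2 0
        simp at h3
      · intro hs
        obtain ⟨x, hx⟩ := hs fun _ => true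
        obtain ⟨y, hy⟩ := hs fun _ => false
        have h3 := congrFun (hx.symm.trans ((hc x y).trans hy)) 0
        simp at h3
  · intro A hA k hk hb
    have hP := polish_cantor
    have hR : ¬ Countable ℝ := not_countable_iff.2 inferInstance
    let G : ℝ ≃ᵐ (ℕ → Bool) :=
      PolishSpace.measurableEquivOfNotCountable hR not_countable_cantor
    have h1 : Real.measurableSpace ≤ generateFrom (range A) :=
      (BorelSpace.measurable_eq (α := ℝ)).le.trans hA
    exact not_surjective A k hk hb G (G.measurable.mono h1 le_rfl) G.surjective

end Pool.Agent.Results.MP_1c8600_lc.CollapseStructure
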